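import Pool.Agent.THF.L.Defs
import Pool.Agent.THF.K.Defs
import Pool.Agent.LD.L.Deg

/-!
# THF/I-Vk: the places `V_K` (paper section 0)

`V` = the places of `K` containing a prime `p ≤ X`, `p ∉ T`, `X = max (φ (2 n)) (φ (4 n))`, `n = [K : ℚ]`, and one more place away
from `T`. The local degree of `K(√x)`, `KN V x`, is `2` at the places over `V` (`nonsplit_two`).
-/

namespace Pool.Agent.THF

open NumberField IsDedekindDomain Pool.Agent.HWR Pool.Agent.QD Pool.Agent.QD.In Pool.Agent.LD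
  Pool.Agent.MD

/-- the place under a place over `p` -/
private theorem vk_under (K : Type) {L : Type} [Field K] [NumberField K] [Field L] [NumberField L]
    [Algebra K L] {p : ℕ} (hp : p.Prime) (w : HeightOneSpectrum (𝓞 L))
    (h : ((p : ℕ) : 𝓞 L) ∈ w.asIdeal) :
    ∃ v : HeightOneSpectrum (𝓞 K), Over v w ∧ ((p : ℕ) : 𝓞 K) ∈ v.asIdeal := by
  have hmem : ((p : ℕ) : 𝓞 K) ∈ w.asIdeal.comap (algebraMap (𝓞 K) (𝓞 L)) := by
    rw [Ideal.mem_comap, map_natCast]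
    exact h
  have hw : w.asIdeal.IsPrime := w.isPrime
  have hne : w.asIdeal.comap (algebraMap (𝓞 K) (𝓞 L)) ≠ ⊥ := by
    intro h0
    rw [h0, Ideal.mem_bot] at hmem
    exact hp.ne_zero (by exact_mod_cast hmem)
  exact ⟨⟨_, Ideal.IsPrime.comap _, hne⟩, rfl, hmem⟩

private theorem vk_away {K : Type} [Field K] [NumberField K] {T : Finset ℕ}
    (hTp : ∀ p ∈ T, p.Prime) {p : ℕ} (hp : p.Prime) (hpT : p ∉ T) (v : HeightOneSpectrum (𝓞 K))
    (h : ((p : ℕ) : 𝓞 K) ∈ v.asIdeal) : Away K T v := by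
  intro q hq hqv
  have hne : p ≠ q := by
    rintro rfl
    exact hpT hq
  have hcop : Nat.Coprime p q := (Nat.coprime_primes hp (hTp q hq)).2 hne
  obtain ⟨a, b, hab⟩ := Nat.isCoprime_iff_coprime.2 hcop
  have h3 : ((a * p + b * q : ℤ) : 𝓞 K) = 1 := by
    rw [hab]
    exact Int.cast_one
  have h2 : (1 : 𝓞 K) ∈ v.asIdeal := by
    rw [← h3]
    push_cast
    exact v.asIdeal.add_mem (v.asIdeal.mul_mem_left _ h) (v.asIdeal.mul_mem_left _ hqv)
  exact v.isPrime.ne_top ((Ideal.eq_top_iff_one _).2 h2)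

private theorem vk_place (K : Type) [Field K] [NumberField K] {p : ℕ} (hp : p.Prime) :
    ∃ v : HeightOneSpectrum (𝓞 K), ((p : ℕ) : 𝓞 K) ∈ v.asIdeal := by
  have hp0 : (p : ℤ) ≠ 0 := by exact_mod_cast hp.ne_zero
  have hpr : (Ideal.span {(p : ℤ)}).IsPrime := by
    rw [Ideal.span_singleton_prime hp0]
    exact Nat.prime_iff_prime_int.1 hp
  have hb : Ideal.span {(p : ℤ)} ≠ ⊥ := by
    rw [Ne, Ideal.span_singleton_eq_bot]
    exact hp0
  obtain ⟨⟨P, hP⟩⟩ := (Ideal.span {(p : ℤ)}).nonempty_primesOver (S := 𝓞 K)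
  refine ⟨⟨P, hP.1, Ideal.ne_bot_of_mem_primesOver hb hP⟩, ?_⟩
  have h1 : (p : ℤ) ∈ Ideal.span {(p : ℤ)} := Ideal.mem_span_singleton_self _
  rw [hP.2.over] at h1
  have h3 : algebraMap ℤ (𝓞 K) (p : ℤ) ∈ P := h1
  rw [map_natCast] at h3
  exact h3

theorem exists_V (φ : ℕ → ℕ) {T : Finset ℕ} (hTp : ∀ p ∈ T, p.Prime) (K : Type) [Field K]
    [NumberField K] : ∃ V : Finset (HeightOneSpectrum (𝓞 K)), V.Nonempty ∧
      (∀ v ∈ V, Away K T v) ∧ ∀ x : Kˣ, KN V x →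
        ∀ (L : Type) [Field L] [NumberField L] [Algebra K L] (θ : L), Module.finrank K L = 2 →
          θ ^ 2 = algebraMap K L (x : K) → Thin φ T L ∧
            ∀ (M : Type) [Field M] [NumberField M] [Algebra L M], Module.finrank L M = 2 →
              Thin φ T M := by
  classical
  set n : ℕ := Module.finrank ℚ K with hn
  set X : ℕ := max (φ (2 * n)) (φ (4 * n)) with hX
  have hfin : {v : HeightOneSpectrum (𝓞 K) | ∃ p : ℕ, p.Prime ∧ p ∉ T ∧ p ≤ X ∧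
      ((p : ℕ) : 𝓞 K) ∈ v.asIdeal}.Finite := by
    have h : {v : HeightOneSpectrum (𝓞 K) | ∃ p : ℕ, p.Prime ∧ p ∉ T ∧ p ≤ X ∧
        ((p : ℕ) : 𝓞 K) ∈ v.asIdeal} ⊆
        ⋃ p ∈ {p : ℕ | p.Prime ∧ p ≤ X}, {v : HeightOneSpectrum (𝓞 K) | ((p : ℕ) : 𝓞 K) ∈ v.asIdeal} := by
      rintro v ⟨p, h1, -, h2, h3⟩
      simp only [Set.mem_iUnion]
      exact ⟨p, ⟨h1, h2⟩, h3⟩
    have hf : {p : ℕ | p.Prime ∧ p ≤ X}.Finite := (Set.finite_le_nat X).subset fun p hp => hp.2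
    refine Set.Finite.subset (Set.Finite.biUnion hf (fun p hp => ?_)) h
    refine finite_mem _ ?_
    exact_mod_cast hp.1.ne_zero
  obtain ⟨p0, hp0T, hp0⟩ : ∃ p : ℕ, p ∉ T ∧ p.Prime := by
    obtain ⟨p, h1, h2⟩ := Nat.exists_infinite_primes (T.sup id + 1)
    refine ⟨p, fun h => ?_, h2⟩
    have h3 : p ≤ T.sup id := Finset.le_sup (f := id) h
    omega
  obtain ⟨v0, hv0⟩ := vk_place K hp0
  have hmem : ∀ v : HeightOneSpectrum (𝓞 K), v ∈ insert v0 hfin.toFinset ↔ v = v0 ∨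
      ∃ p : ℕ, p.Prime ∧ p ∉ T ∧ p ≤ X ∧ ((p : ℕ) : 𝓞 K) ∈ v.asIdeal := by
    intro v
    rw [Finset.mem_insert, Set.Finite.mem_toFinset]
    exact Iff.rfl
  refine ⟨insert v0 hfin.toFinset, Finset.insert_nonempty _ _, ?_, ?_⟩
  · intro v hv
    rcases (hmem v).1 hv with rfl | ⟨p, h1, h2, -, h3⟩
    · exact vk_away hTp hp0 hp0T v hv0
    · exact vk_away hTp h1 h2 v h3
  · rintro x ⟨hx1, hx2⟩ L _ _ _ θ hd hθ
    have hL : Module.finrank ℚ L = 2 * n := by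
      rw [← Module.finrank_mul_finrank ℚ K L, hd, ← hn]
      ring
    have hreal : IsEmpty (L →+* ℝ) := by
      refine ⟨fun ψ => ?_⟩
      have h1 := hx2 (ψ.comp (algebraMap K L))
      rw [RingHom.comp_apply, ← hθ, map_pow] at h1
      exact absurd h1 (not_lt.2 (sq_nonneg _))
    have hdeg : ∀ p : ℕ, p.Prime → p ∉ T → p ≤ X → ∀ w : HeightOneSpectrum (𝓞 L),
        ((p : ℕ) : 𝓞 L) ∈ w.asIdeal → 2 ∣ locDeg ℚ w := by
      intro p h1 h2 h3 w h4
      obtain ⟨v, hvw, hv⟩ := vk_under K h1 w h4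
      have h5 := hx1 v ((hmem v).2 (Or.inr ⟨p, h1, h2, h3, hv⟩))
      have h6 := nonsplit_two L hd x θ hθ v h5 w hvw
      rw [locDeg_tower ℚ K L v w hvw, h6]
      exact dvd_mul_left _ _
    refine ⟨⟨hreal, fun p h1 h2 h3 => hdeg p h1 h2 ?_⟩, ?_⟩
    · rw [hL] at h3
      exact h3.trans (le_max_left _ _)
    · intro M _ _ _ hM
      refine ⟨⟨fun ψ => hreal.false (ψ.comp (algebraMap L M))⟩, fun p h1 h2 h3 W h4 => ?_⟩
      have hM' : Module.finrank ℚ M = 4 * n := by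
        rw [← Module.finrank_mul_finrank ℚ L M, hM, hL]
        ring
      rw [hM'] at h3
      obtain ⟨w, hwW, hw⟩ := vk_under L h1 W h4
      have h5 := hdeg p h1 h2 (h3.trans (le_max_right _ _)) w hw
      rw [locDeg_tower ℚ L M w W hwW]
      exact h5.mul_right _

theorem glob_of {φ : ℕ → ℕ} {T : Finset ℕ} (hTp : ∀ p ∈ T, p.Prime) (D : LocData T)
    {a : ℕ → ℝ} (H : ∀ (F : Type) [Field F] [NumberField F], Thin φ T F → D.HW a F) :
    Glob D a := by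
  intro K _ _
  obtain ⟨V, h1, h2, h3⟩ := exists_V φ hTp K
  refine ⟨V, h1, h2, ?_, ?_⟩
  · intro x hx L _ _ _ θ hd hθ
    exact H L (h3 x hx L θ hd hθ).1
  · intro x hx L _ _ _ θ hd hθ M _ _ _ hM
    exact H M ((h3 x hx L θ hd hθ).2 M hM)

end Pool.Agent.THF
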